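import Mathlib

namespace Pool.Agent.Results.MP_fc2b6d_co.Repeated
open SimpleGraph Cardinal

/-- `F` is a strongly maximal `H`-free spanning subgraph of `G` -/
def Strong {W V : Type} (H : SimpleGraph W) (G F : SimpleGraph V) : Prop :=
  F ≤ G ∧ H.Free F ∧ ∀ I : SimpleGraph V, I ≤ G → H.Free I →
    #(I.edgeSet \ F.edgeSet : Set (Sym2 V)) ≤ #(F.edgeSet \ I.edgeSet : Set (Sym2 V))

def G : SimpleGraph (ℕ × ℕ) where
  Adj a b := a.1 = b.1 ∧ a.2 ≠ b.2 ∧ a.2 < a.1 ∧ b.2 < a.1
  symm := ⟨fun a b h => ⟨h.1.symm, h.2.1.symm, h.1 ▸ h.2.2.2, h.1 ▸ h.2.2.1⟩⟩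
  loopless := ⟨fun a h => h.2.1 rfl⟩

def Cp {W : Type} (H : SimpleGraph W) (S : Set W) (F : SimpleGraph (ℕ × ℕ)) (n : ℕ) : Prop :=
  ∃ g : W → ℕ × ℕ, Set.InjOn g S ∧ (∀ w ∈ S, ∀ w' ∈ S, H.Adj w w' → F.Adj (g w) (g w')) ∧
    ∀ w ∈ S, (g w).1 = n

lemma inj_choice {ι : Type} (P : ι → Set ℕ) (h : ∀ c, (P c).Infinite) (s : Finset ι) :
    ∃ f : ι → ℕ, Set.InjOn f s ∧ ∀ c ∈ s, f c ∈ P c := by
  classical
  induction s using Finset.induction_on with
  | empty => exact ⟨fun _ => 0, by simp, by simp⟩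
  | insert a s ha ih =>
    obtain ⟨f, f1, f2⟩ := ih
    obtain ⟨x, x1, x2⟩ := (h a).exists_notMem_finset (s.image f)
    have e : ∀ c ∈ s, Function.update f a x c = f c := fun c hc =>
      Function.update_of_ne (ne_of_mem_of_not_mem hc ha) _ _
    refine ⟨Function.update f a x, ?_, ?_⟩
    · intro u hu w hw huw
      simp only [Finset.coe_insert, Set.mem_insert_iff, Finset.mem_coe] at hu hw
      rcases hu with rfl | hu <;> rcases hw with rfl | hw
      · rfl
      · rw [Function.update_self, e w hw] at huw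
        exact absurd (Finset.mem_image.2 ⟨w, hw, huw.symm⟩) x2
      · rw [Function.update_self, e u hu] at huw
        exact absurd (Finset.mem_image.2 ⟨u, hu, huw⟩) x2
      · rw [e u hu, e w hw] at huw; exact f1 hu hw huw
    · intro c hc
      rcases Finset.mem_insert.1 hc with rfl | hc
      · rw [Function.update_self]; exact x1
      · rw [e c hc]; exact f2 c hc

lemma greedy (R : ℕ → ℕ → Prop) (hR : ∀ i j, R i j → R j i) (n M : ℕ) (B : ℕ → Finset ℕ)
    (hB : ∀ i < n, (B i).card ≤ M) (hR' : ∀ i < n, ∀ j < n, j ≠ i → j ∉ B i → R i j) (k : ℕ)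
    (hk : k * (M + 1) ≤ n) :
    ∃ S : Finset ℕ, S.card = k ∧ (∀ i ∈ S, i < n) ∧ ∀ i ∈ S, ∀ j ∈ S, i ≠ j → R i j := by
  induction k with
  | zero => exact ⟨∅, rfl, by simp, by simp⟩
  | succ k ih =>
    obtain ⟨S, s1, s2, s3⟩ := ih (le_trans (Nat.mul_le_mul_right _ k.le_succ) hk)
    have c : (S ∪ S.biUnion B).card < (Finset.range n).card := by
      have := Finset.card_union_le S (S.biUnion B)
      have := Finset.card_biUnion_le_card_mul S B M fun i hi => hB i (s2 i hi)
      rw [Finset.card_range]; rw [s1] at *; nlinarith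
    obtain ⟨j, j1, j2⟩ := Finset.exists_mem_notMem_of_card_lt_card c
    simp only [Finset.mem_union, Finset.mem_biUnion, not_or, not_exists, not_and] at j2
    have jn := Finset.mem_range.1 j1
    have r : ∀ i ∈ S, R i j := fun i hi =>
      hR' i (s2 i hi) j jn (fun h => j2.1 (h ▸ hi)) (j2.2 i hi)
    refine ⟨insert j S, by rw [Finset.card_insert_of_notMem j2.1, s1], ?_, ?_⟩
    · intro i hi
      rcases Finset.mem_insert.1 hi with rfl | hi
      exacts [jn, s2 i hi]
    · intro a ha b hb hab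
      rcases Finset.mem_insert.1 ha with ha' | ha' <;> rcases Finset.mem_insert.1 hb with hb' | hb'
      exacts [absurd (ha'.trans hb'.symm) hab, ha' ▸ hR _ _ (r b hb'), hb' ▸ r a ha',
        s3 a ha' b hb' hab]

lemma const {W : Type} (H : SimpleGraph W) (C : H.ConnectedComponent) (p : W → ℕ)
    (h : ∀ w ∈ C.supp, ∀ w' ∈ C.supp, H.Adj w w' → p w = p w') :
    ∃ n, ∀ w ∈ C.supp, p w = n := by
  obtain ⟨a, rfl⟩ := C.exists_rep
  have : ∀ u v : W, H.Walk u v → v ∈ (H.connectedComponentMk a).supp → p u = p v := by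
    intro u v q
    induction q with
    | nil => intro _; rfl
    | cons hadj q ih =>
      intro hv
      have m2 := (ConnectedComponent.sound q.reachable).trans hv
      have m1 := (ConnectedComponent.sound hadj.reachable).trans m2
      exact (h _ m1 _ m2 hadj).trans (ih hv)
  refine ⟨p a, fun w hw => ?_⟩
  obtain ⟨q⟩ := ConnectedComponent.exact hw
  exact this w a q rfl

theorem result {W : Type} [Finite W] (H : SimpleGraph W)
    (hrep : ∀ C : H.ConnectedComponent, ∃ C' : H.ConnectedComponent,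
      C' ≠ C ∧ H.induce C.supp ⊑ H.induce C'.supp) :
    ∃ (V : Type) (G : SimpleGraph V), ¬ ∃ F : SimpleGraph V, Strong H G F := by
  classical
  refine ⟨ℕ × ℕ, G, ?_⟩
  rintro ⟨F, FG, Ff, Fs⟩
  have := Fintype.ofFinite W
  have := Fintype.ofFinite H.ConnectedComponent
  have fin : ∃ C : H.ConnectedComponent, {n | Cp H C.supp F n}.Finite := by
    by_contra hc
    push Not at hc
    obtain ⟨f, f1, f2⟩ := inj_choice (fun C : H.ConnectedComponent => {n | Cp H C.supp F n})
      hc Finset.univ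
    choose g g1 g2 g3 using fun C => f2 C (Finset.mem_univ C)
    refine Ff ⟨⟨⟨fun w => g (H.connectedComponentMk w) w, fun {a b} hab => ?_⟩, fun a b hab => ?_⟩⟩
    · have e : H.connectedComponentMk b = H.connectedComponentMk a :=
        (ConnectedComponent.sound hab.reachable).symm
      rw [e]
      exact g2 _ a rfl b e hab
    · have hab' : g (H.connectedComponentMk a) a = g (H.connectedComponentMk b) b := hab
      have e : H.connectedComponentMk b = H.connectedComponentMk a :=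
        f1 (Finset.mem_univ _) (Finset.mem_univ _)
          (by rw [← g3 _ a rfl, ← g3 _ b rfl, hab'])
      rw [e] at hab'
      exact g1 _ rfl e hab'
  obtain ⟨C, hC⟩ := fin
  obtain ⟨N, hN⟩ := hC.bddAbove
  have nb : ∀ n, N < n → ¬ Cp H C.supp F n := fun n hn h => absurd (hN h) (not_le.2 hn)
  set T0 : Finset (Sym2 (ℕ × ℕ)) := ((Finset.range (N + 1) ×ˢ Finset.range (N + 1)) ×ˢ
    (Finset.range (N + 1) ×ˢ Finset.range (N + 1))).image fun p => s(p.1, p.2) with hT0
  set n := Fintype.card W * (T0.card + 1) + N + 1 with hn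
  set B : ℕ → Finset ℕ := fun i => (Finset.range n).filter fun j => j ≠ i ∧ ¬ F.Adj (n, i) (n, j)
    with hB
  have big : ∃ i < n, T0.card < (B i).card := by
    by_contra hc
    push Not at hc
    obtain ⟨S, s1, -, s3⟩ := greedy (fun i j => F.Adj (n, i) (n, j)) (fun _ _ h => h.symm) n _ B hc
      (fun i _ j hj ji h => by
        by_contra h'
        exact h (Finset.mem_filter.2 ⟨Finset.mem_range.2 hj, ji, h'⟩)) (Fintype.card W) (by omega)
    obtain ⟨e⟩ : Nonempty (W ≃ S) := ⟨Fintype.equivOfCardEq (by simp [s1])⟩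
    have ei : Function.Injective fun w => (e w).1 := Subtype.val_injective.comp e.injective
    exact nb n (by omega) ⟨fun w => (n, (e w).1), fun a _ b _ h => ei (congrArg Prod.snd h),
      fun a _ b _ h => s3 _ (e a).2 _ (e b).2 fun h' => h.ne (ei h'), fun _ _ => rfl⟩
  obtain ⟨i, hi, hbig⟩ := big
  let I : SimpleGraph (ℕ × ℕ) :=
    { Adj := fun a b => (F.Adj a b ∧ N < a.1) ∨ (G.Adj a b ∧ (a = (n, i) ∨ b = (n, i)))
      symm := ⟨fun a b h => by
        rcases h with ⟨h1, h2⟩ | ⟨h1, h2⟩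
        · exact Or.inl ⟨h1.symm, (FG h1).1 ▸ h2⟩
        · exact Or.inr ⟨h1.symm, h2.symm⟩⟩
      loopless := ⟨fun a h => by
        rcases h with ⟨h1, -⟩ | ⟨h1, -⟩ <;> exact h1.ne rfl⟩ }
  have IG : I ≤ G := fun a b h => h.elim (fun h => FG h.1) fun h => h.1
  have key : ∀ g : W → ℕ × ℕ, Set.InjOn g C.supp →
      (∀ w ∈ C.supp, ∀ w' ∈ C.supp, H.Adj w w' → I.Adj (g w) (g w')) →
      ∃ w ∈ C.supp, g w = (n, i) := by
    intro g g1 g2
    by_contra hc
    push Not at hc
    have g3 : ∀ w ∈ C.supp, ∀ w' ∈ C.supp, H.Adj w w' → F.Adj (g w) (g w') ∧ N < (g w).1 :=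
      fun w hw w' hw' h => (g2 w hw w' hw' h).elim id fun h =>
        h.2.elim (fun h => absurd h (hc w hw)) fun h => absurd h (hc w' hw')
    obtain ⟨m, hm⟩ := const H C (fun w => (g w).1) fun w hw w' hw' h => (FG (g3 w hw w' hw' h).1).1
    by_cases hm' : N < m
    · exact nb m hm' ⟨g, g1, fun w hw w' hw' h => (g3 w hw w' hw' h).1, hm⟩
    · refine nb (N + 1) N.lt_succ_self ⟨fun w => (N + 1, (g w).2), fun a ha b hb h => g1 ha hb
        (Prod.ext ((hm a ha).trans (hm b hb).symm) (Prod.ext_iff.1 h).2),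
        fun w hw w' hw' h => absurd (hm w hw ▸ (g3 w hw w' hw' h).2) hm', fun _ _ => rfl⟩
  have If : H.Free I := by
    rintro ⟨φ⟩
    obtain ⟨C', hne, ⟨ψ⟩⟩ := hrep C
    obtain ⟨w, hw, e1⟩ := key φ φ.injective.injOn fun a _ b _ h => φ.toHom.map_rel h
    obtain ⟨w', hw', e2⟩ := key (fun w => φ (if h : w ∈ C.supp then (ψ ⟨w, h⟩).1 else w))
      (fun a ha b hb h => by
        have := φ.injective h
        rw [dif_pos ha, dif_pos hb] at this
        exact congrArg Subtype.val (ψ.injective (Subtype.ext this)))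
      (fun a ha b hb h => by
        rw [dif_pos ha, dif_pos hb]
        exact φ.toHom.map_rel (ψ.toHom.map_rel (a := ⟨a, ha⟩) (b := ⟨b, hb⟩) h))
    have := φ.injective (e1.trans e2.symm)
    rw [dif_pos hw'] at this
    have m : w ∈ C'.supp := this ▸ (ψ ⟨w', hw'⟩).2
    exact hne (Eq.trans (Eq.symm m) hw)
  have h := Fs I IG If
  have s0 : (F.edgeSet \ I.edgeSet : Set _) ⊆ (T0 : Set _) := by
    intro e he
    induction e using Sym2.ind with
    | h a b =>
      have fa : F.Adj a b := he.1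
      have ga := FG fa
      have : ¬ N < a.1 := fun h => he.2 (Or.inl ⟨fa, h⟩)
      obtain ⟨g1, -, g3, g4⟩ := ga
      refine Finset.mem_coe.2 (Finset.mem_image.2 ⟨(a, b), ?_, rfl⟩)
      simp only [Finset.mem_product, Finset.mem_range]; omega
  have s1 : (((B i).image fun j => s((n, i), (n, j)) : Finset (Sym2 (ℕ × ℕ))) : Set _) ⊆
      (I.edgeSet \ F.edgeSet : Set _) := by
    intro e he
    obtain ⟨j, hj, rfl⟩ := Finset.mem_image.1 (Finset.mem_coe.1 he)
    obtain ⟨j1, j2, j3⟩ := Finset.mem_filter.1 hj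
    exact ⟨Or.inr ⟨⟨rfl, j2.symm, hi, Finset.mem_range.1 j1⟩, Or.inl rfl⟩, j3⟩
  have := ((mk_le_mk_of_subset s1).trans h).trans (mk_le_mk_of_subset s0)
  simp only [Finset.coe_sort_coe, mk_fintype, Fintype.card_coe, Nat.cast_le] at this
  rw [Finset.card_image_of_injective _ (fun a b h => by simpa using Sym2.congr_right.1 h)] at this
  omega

end Pool.Agent.Results.MP_fc2b6d_co.Repeated
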